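import Pool.Agent.H56.Circ.Chain
import Pool.Agent.H23.CC.Gh

/-!
# Circulant matrices with prescribed unit determinant over finite chain rings

Problem MP_d6eb29_al asks for `c_n(R, a)`, the number of `n × n` circulant matrices over a finite
commutative chain ring `R` with determinant the unit `a`, when `p ∣ n` (`p` the residue
characteristic).  Write `n = p^k m` with `p ∤ m`.  We prove that the determinants of the invertible
`n × n` circulant matrices are exactly the units lying in the subring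
`G_k(R) = {α₀^(p^k) + p α₁^(p^(k-1)) + ... + p^k α_k}` (`ghostSet p k R`), and that
`c_n(R, a) = q^(en) / |G_k(R)| * ∏_{d ∣ m, d ≠ 1} (1 - q^(-ord_d q))^(φ(d) / ord_d q)` for every
unit `a ∈ G_k(R)`, while `c_n(R, a) = 0` for every unit `a ∉ G_k(R)`.  We also evaluate `|G_k(R)|`
when `k ≤ 1`, or `p ∤ r`, or `r = e`, where `pR = M^r`.  In the remaining case `c_n(R, 1)` is not a
function of `p, q, r, e, n`: two chain rings with `p = q = 2`, `r = 4`, `e = 8` have
`c_4(R₁, 1) = 2^29` and `c_4(R₂, 1) = 2^28`.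
-/

universe u

namespace Pool.Agent.Results.MP_d6eb29_al.ChainCirculants

open Pool.Agent.H56.Circ

/-- `R` is a finite chain ring with residue characteristic `p`, residue field of order `q`,
nilpotency index `e`, and `pR = M^r` for the maximal ideal `M`. -/
def HasParameters (R : Type) [CommRing R] (p q r e : ℕ) : Prop :=
  Finite R ∧ Nontrivial R ∧ (∀ I J : Ideal R, I ≤ J ∨ J ≤ I) ∧
    ∃ M : Ideal R, M.IsMaximal ∧ p.Prime ∧ (p : R) ∈ M ∧ Nat.card (R ⧸ M) = q ∧
      IsLeast {t : ℕ | M ^ t = ⊥} e ∧ Ideal.span {(p : R)} = M ^ r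

/-- The determination of `c_n(R, a)`, one ring at a time. -/
theorem general (R : Type u) [CommRing R] [Finite R] [Nontrivial R]
    (hR : ∀ I J : Ideal R, I ≤ J ∨ J ≤ I) (M : Ideal R) (hM : M.IsMaximal)
    (p : ℕ) (hp : p.Prime) (hpM : (p : R) ∈ M) (e : ℕ) (he : IsLeast {t : ℕ | M ^ t = ⊥} e)
    (k m : ℕ) (hm : ¬ p ∣ m) (n : ℕ) [NeZero n] (hn : n = p ^ k * m)
    (q : ℕ) (hq : q = Nat.card (R ⧸ M)) :
    -- units outside `G_k(R)` are not determinants of circulant matrices
    (∀ a : R, IsUnit a → a ∉ ghostSet p k R → numCirc n R a = 0) ∧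
    -- the number of circulant matrices with determinant a given unit of `G_k(R)`
    (∀ a : R, IsUnit a → a ∈ ghostSet p k R →
      (numCirc n R a : ℚ) = (q : ℚ) ^ (e * n) / ((ghostSet p k R).ncard : ℚ) *
        ∏ d ∈ m.divisors.erase 1,
          (1 - ((q : ℚ) ^ orderOf (q : ZMod d))⁻¹) ^ (d.totient / orderOf (q : ZMod d))) ∧
    -- closed form for `|G_k(R)|`; here `pR = M^r`
    (∃ r ≤ e, Ideal.span {(p : R)} = M ^ r ∧ ((k ≤ 1 ∨ ¬ p ∣ r ∨ r = e) →
      (ghostSet p k R).ncard =
        q ^ {v : ℕ | v < e ∧ ∃ i ≤ k, ∃ j, v = i * r + p ^ (k - i) * j}.ncard)) := by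
  have : Fact p.Prime := ⟨hp⟩
  have hloc : IsLocalRing R := isLocalRing_of_chain hR
  have hMm : M = IsLocalRing.maximalIdeal R := IsLocalRing.eq_maximalIdeal hM
  subst hMm
  have hchar : CharP (IsLocalRing.ResidueField R) p := by
    have h0 : ((p : ℕ) : IsLocalRing.ResidueField R) = 0 := by
      rw [← map_natCast (IsLocalRing.residue R), IsLocalRing.residue_eq_zero_iff]
      exact hpM
    exact (CharP.charP_iff_prime_eq_zero hp).2 h0
  have hq' : q = Nat.card (IsLocalRing.ResidueField R) := hq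
  have hm0 : 0 < m := by
    rcases Nat.eq_zero_or_pos m with h | h
    · subst h; exact absurd (dvd_zero p) hm
    · exact h
  have hmp : Nat.Coprime m p := ((Nat.Prime.coprime_iff_not_dvd hp).mpr hm).symm
  obtain ⟨γ, hγ⟩ := exists_generator hR (IsLocalRing.maximalIdeal R)
  have hpow : ∀ t, IsLocalRing.maximalIdeal R ^ t = ⊥ ↔ γ ^ t = 0 := by
    intro t
    rw [hγ, Ideal.span_singleton_pow, Ideal.span_singleton_eq_bot]
  have heγ : γ ^ e = 0 := (hpow e).mp he.1
  have heγ' : ∀ i < e, γ ^ i ≠ 0 := by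
    intro i hi h
    have := he.2 ((hpow i).mpr h)
    omega
  have hcard : (ghostSet p k R).ncard = Nat.card (ghostSubring p k R) := by
    rw [← coe_ghostSubring]; rfl
  have hn' : n = m * p ^ k := by rw [hn, mul_comm]
  subst hn'
  have hR' : (Nat.card R : ℚ) = (q : ℚ) ^ e := by
    rw [card_chain hγ heγ heγ', ← hq']
    push_cast
    rfl
  refine ⟨?_, ?_, ?_⟩
  · intro a ha hna
    rw [← coe_ghostSubring] at hna
    exact (numCirc_local p m k hm0 hmp a ha).1 hna
  · intro a ha hna
    rw [← coe_ghostSubring] at hna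
    have h := (numCirc_local p m k hm0 hmp a ha).2 hna
    rw [h, hcard, hR', ← pow_mul, ← hq']
  · -- the exponent `r`
    by_cases hp0 : (p : R) = 0
    · refine ⟨e, le_rfl, ?_, fun _ => ?_⟩
      · rw [hγ, Ideal.span_singleton_pow, heγ, hp0]
      · rw [hcard, hq']
        refine card_ghost p hγ heγ heγ' k e 1 (by rw [hp0, heγ, mul_zero]) ?_
        intro l t hlt _ _
        right
        exact Nat.le_mul_of_pos_left e (by omega)
    · obtain ⟨r, hr, ε, hε⟩ := exists_unit_mul_pow hγ heγ (p : R) hp0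
      refine ⟨r, hr.le, ?_, fun H => ?_⟩
      · rw [hγ, Ideal.span_singleton_pow, hε, Ideal.span_singleton_mul_left_unit ε.isUnit]
      · rw [hcard, hq']
        refine card_ghost p hγ heγ heγ' k r ε hε ?_
        intro l t hlt htk hdvd
        rcases H with H | H | H
        · left
          have : k - t = 0 := by omega
          rw [this, pow_zero]
          exact one_dvd _
        · left
          exact (Nat.Coprime.pow_left _ ((Nat.Prime.coprime_iff_not_dvd hp).mpr H)).dvd_of_dvd_mul_right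
            hdvd
        · omega


open Pool.Agent.H23.CC in
theorem params (t s : ZMod 4) (hs : t = 2 * s) : HasParameters (A t) 2 2 4 8 := by
  have := Pool.Agent.H23.CC.finite t
  have := ntriv t
  have h8 := x8 t s hs
  have hr := res t s hs
  refine ⟨inferInstance, inferInstance, chain h8 hr, Ideal.span {x t}, maximal h8 hr,
    Nat.prime_two, ?_, card_res h8 hr, least h8 (x7 t s hs), ?_⟩
  · rw [Ideal.mem_span_singleton, Nat.cast_ofNat]
    exact dvd_trans (dvd_pow_self _ (by norm_num)) (x_dvd_two t s hs)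
  · rw [Ideal.span_singleton_pow, Nat.cast_ofNat]
    apply le_antisymm
    · rw [Ideal.span_singleton_le_span_singleton]
      exact x_dvd_two t s hs
    · rw [Ideal.span_singleton_le_span_singleton]
      obtain ⟨w, _, h⟩ := two_eq t s hs
      exact ⟨w, h⟩

open Pool.Agent.H23.CC in
theorem count (t s : ZMod 4) (hs : t = 2 * s) (N : ℕ) (hN : (ghostSet 2 2 (A t)).ncard = N) :
    (numCirc 4 (A t) 1 : ℚ) = 2 ^ 32 / N := by
  have h0 := params t s hs
  obtain ⟨h1, h2, h3, M, hM, hp, hpM, hq, he, hr⟩ := h0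
  have h := (general (A t) h3 M hM 2 hp hpM 8 he 2 1 (by norm_num) 4 (by norm_num) 2 hq.symm).2.1
    1 isUnit_one ((mem_ghost (four t) 1).2 ⟨1, 0, by ring⟩)
  rw [h, hN, Nat.divisors_one]
  norm_num

/-- **Determination of `c_n(R, a)` for finite chain rings and unit `a`.**
`R` is a finite commutative chain ring (`hR`) with maximal ideal `M`, residue characteristic `p`
and nilpotency index `e`; `q = |R/M|`, `n = p^k m` with `p ∤ m`. -/
theorem result :
    (∀ (R : Type u) [CommRing R] [Finite R] [Nontrivial R]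
      (hR : ∀ I J : Ideal R, I ≤ J ∨ J ≤ I) (M : Ideal R) (hM : M.IsMaximal)
      (p : ℕ) (hp : p.Prime) (hpM : (p : R) ∈ M) (e : ℕ) (he : IsLeast {t : ℕ | M ^ t = ⊥} e)
      (k m : ℕ) (hm : ¬ p ∣ m) (n : ℕ) [NeZero n] (hn : n = p ^ k * m)
      (q : ℕ) (hq : q = Nat.card (R ⧸ M)),
    -- units outside `G_k(R)` are not determinants of circulant matrices
    (∀ a : R, IsUnit a → a ∉ ghostSet p k R → numCirc n R a = 0) ∧
    -- the number of circulant matrices with determinant a given unit of `G_k(R)`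
    (∀ a : R, IsUnit a → a ∈ ghostSet p k R →
      (numCirc n R a : ℚ) = (q : ℚ) ^ (e * n) / ((ghostSet p k R).ncard : ℚ) *
        ∏ d ∈ m.divisors.erase 1,
          (1 - ((q : ℚ) ^ orderOf (q : ZMod d))⁻¹) ^ (d.totient / orderOf (q : ZMod d))) ∧
    -- closed form for `|G_k(R)|`; here `pR = M^r`
    (∃ r ≤ e, Ideal.span {(p : R)} = M ^ r ∧ ((k ≤ 1 ∨ ¬ p ∣ r ∨ r = e) →
      (ghostSet p k R).ncard =
        q ^ {v : ℕ | v < e ∧ ∃ i ≤ k, ∃ j, v = i * r + p ^ (k - i) * j}.ncard))) ∧
    -- `c_n(R, 1)` is not a function of `p, q, r, e, n`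
    (∃ (R₁ R₂ : Type) (_ : CommRing R₁) (_ : CommRing R₂),
      HasParameters R₁ 2 2 4 8 ∧ HasParameters R₂ 2 2 4 8 ∧
        numCirc 4 R₁ 1 = 2 ^ 29 ∧ numCirc 4 R₂ 1 = 2 ^ 28) := by
  refine ⟨fun R _ _ _ hR M hM p hp hpM e he k m hm n _ hn q hq =>
    general R hR M hM p hp hpM e he k m hm n hn q hq, ?_⟩
  refine ⟨Pool.Agent.H23.CC.A 0, Pool.Agent.H23.CC.A 2, inferInstance, inferInstance,
    params 0 0 (by decide), params 2 1 (by decide), ?_, ?_⟩
  · have h := count 0 0 (by decide) 8 Pool.Agent.H23.CC.ghost_card0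
    have h2 : ((numCirc 4 (Pool.Agent.H23.CC.A 0) 1 : ℕ) : ℚ) = ((2 ^ 29 : ℕ) : ℚ) := by
      rw [h]
      norm_num
    exact_mod_cast h2
  · have h := count 2 1 (by decide) 16 Pool.Agent.H23.CC.ghost_card2
    have h2 : ((numCirc 4 (Pool.Agent.H23.CC.A 2) 1 : ℕ) : ℚ) = ((2 ^ 28 : ℕ) : ℚ) := by
      rw [h]
      norm_num
    exact_mod_cast h2

end Pool.Agent.Results.MP_d6eb29_al.ChainCirculants
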